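import Pool.Agent.AlphaSix.Upper
import Pool.Agent.AlphaSix.Family

/-!
# `α₆ = 10`

Every minimally contraction-critical 6-connected graph has average degree at most `10`, and `10`
is the supremum of these average degrees.
-/

namespace Pool.Agent.Results.MP_026554_co.AlphaSixEqTen

open Pool.Agent.AlphaSix

theorem result :
    (∀ (V : Type) (G : SimpleGraph V), MinContractionCritical 6 G → avgDegree G ≤ 10) ∧
    (∀ ε : ℝ, 0 < ε → ∃ (V : Type) (_ : Finite V) (G : SimpleGraph V),
      MinContractionCritical 6 G ∧ 10 - ε < avgDegree G) ∧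
    alphaSix = 10 := by
  have h1 : ∀ (V : Type) (G : SimpleGraph V), MinContractionCritical 6 G → avgDegree G ≤ 10 :=
    fun V G h => avgDegree_le_ten h
  have h2 : ∀ ε : ℝ, 0 < ε → ∃ (V : Type) (_ : Finite V) (G : SimpleGraph V),
      MinContractionCritical 6 G ∧ 10 - ε < avgDegree G := by
    intro ε hε
    obtain ⟨m, hm1, hm2⟩ := exists_fam hε
    exact ⟨_, inferInstance, fam m, hm1, hm2⟩
  refine ⟨h1, h2, ?_⟩
  unfold alphaSix
  apply IsLUB.csSup_eq
  · constructor
    · rintro x ⟨V, _, G, hG, rfl⟩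
      exact h1 V G hG
    · intro b hb
      by_contra hlt
      push Not at hlt
      obtain ⟨V, hV, G, hG, hx⟩ := h2 (10 - b) (by linarith)
      have h3 : avgDegree G ≤ b := hb ⟨V, hV, G, hG, rfl⟩
      linarith
  · obtain ⟨V, hV, G, hG, _⟩ := h2 1 one_pos
    exact ⟨_, V, hV, G, hG, rfl⟩

end Pool.Agent.Results.MP_026554_co.AlphaSixEqTen
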